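import Mathlib

namespace Pool.Agent.Results.MP_0f31da_co.Counter

open SimpleGraph Finset

variable {V : Type} [Fintype V]

/-- the largest order of an induced forest -/
noncomputable def f (G : SimpleGraph V) : ℕ :=
  sSup {k | ∃ s : Finset V, s.card = k ∧ (G.induce (s : Set V)).IsAcyclic}

/-- the largest order of an induced bipartite subgraph -/
noncomputable def b (G : SimpleGraph V) : ℕ :=
  sSup {k | ∃ s : Finset V, s.card = k ∧ (G.induce (s : Set V)).Colorable 2}

/-- the average independence number of the neighbourhoods -/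
noncomputable def lbar (G : SimpleGraph V) : ℝ :=
  (∑ v, ((G.induce (G.neighborSet v)).indepNum : ℝ)) / Fintype.card V

def adj (i j : Fin 31) : Bool := i != j && ((4 ≤ i.1 && 4 ≤ j.1) ||
  (i.1 < 4 && j.1 < 4 && (i.1 + j.1) % 2 == 1) || (i.1 == 0 && j.1 == 4) || (i.1 == 4 && j.1 == 0))

def G : SimpleGraph (Fin 31) where
  Adj i j := adj i j
  symm := ⟨by decide +kernel⟩
  loopless := ⟨by decide +kernel⟩

instance : DecidableRel G.Adj := fun i j => inferInstanceAs (Decidable (adj i j = true))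

lemma conn : G.Connected := by
  have h : ∀ i, G.Reachable 4 i := fun i => by
    have : ∀ i, i = 4 ∨ G.Adj 4 i ∨ G.Adj 0 i ∨ G.Adj 1 i := by decide +kernel
    have a : G.Reachable 4 0 := Adj.reachable (by decide)
    have c : G.Reachable 0 1 := Adj.reachable (by decide)
    rcases this i with rfl | h | h | h
    exacts [.rfl, h.reachable, a.trans h.reachable, (a.trans c).trans h.reachable]
  exact ⟨fun u v => (h u).symm.trans (h v)⟩

lemma f_le : f G ≤ 5 := by
  refine csSup_le' ?_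
  rintro _ ⟨s, rfl, h⟩
  have h1 : (s.filter fun i => 4 ≤ i.1).card ≤ 2 := by
    by_contra c
    obtain ⟨x, hx, y, hy, z, hz, a1, a2, a3⟩ := two_lt_card.1 (not_le.1 c)
    simp only [mem_filter] at hx hy hz
    have k : ∀ x y : Fin 31, 4 ≤ x.1 → 4 ≤ y.1 → x ≠ y → G.Adj x y := by decide +kernel
    refine h.cliqueFree le_rfl {(⟨x, hx.1⟩ : (s : Set (Fin 31))), ⟨y, hy.1⟩, ⟨z, hz.1⟩} ?_
    rw [is3Clique_triple_iff]
    exact ⟨k x y hx.2 hy.2 a1, k x z hx.2 hz.2 a2, k y z hy.2 hz.2 a3⟩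
  have h2 : (s.filter fun i => ¬ 4 ≤ i.1).card ≤ 3 := by
    by_contra c
    have e : s.filter (fun i => ¬ 4 ≤ i.1) = univ.filter fun i => ¬ 4 ≤ i.1 :=
      eq_of_subset_of_card_le (filter_subset_filter _ (subset_univ _)) (by
        rw [show (univ.filter fun i : Fin 31 => ¬ 4 ≤ i.1).card = 4 by decide +kernel]; omega)
    have m : ∀ i : Fin 31, ¬ 4 ≤ i.1 → i ∈ s := fun i hi => (mem_filter.1 (e.ge (mem_filter.2 ⟨mem_univ _, hi⟩))).1
    have a : ∀ x y hx hy, G.Adj x y → (G.induce (s : Set (Fin 31))).Adj ⟨x, hx⟩ ⟨y, hy⟩ := fun _ _ _ _ h => h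
    have := (h.subsingleton_path ⟨0, m 0 (by decide)⟩ ⟨2, m 2 (by decide)⟩).elim
      ⟨.cons (a 0 1 _ (m 1 (by decide)) (by decide)) (.cons (a 1 2 _ _ (by decide)) .nil), by simp⟩
      ⟨.cons (a 0 3 _ (m 3 (by decide)) (by decide)) (.cons (a 3 2 _ _ (by decide)) .nil), by simp⟩
    simp at this
  have := card_filter_add_card_filter_not (s := s) fun i => 4 ≤ i.1
  omega

lemma b_ge : 6 ≤ b G := by
  refine le_csSup ⟨31, by rintro _ ⟨s, rfl, -⟩; simpa using card_le_univ s⟩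
    ⟨{0, 1, 2, 3, 5, 6}, by decide, ⟨Coloring.mk (fun v => ⟨v.1.1 % 2, by omega⟩) ?_⟩⟩
  have : ∀ x ∈ ({0, 1, 2, 3, 5, 6} : Finset (Fin 31)), ∀ y ∈ ({0, 1, 2, 3, 5, 6} : Finset (Fin 31)),
      G.Adj x y → x.1 % 2 ≠ y.1 % 2 := by decide +kernel
  exact fun {x y} h e => this x x.2 y y.2 h (congrArg Fin.val e)

def w (v : Fin 31) : ℕ := if v.1 = 0 then 3 else if v.1 ≤ 4 then 2 else 1

def c (v u : Fin 31) : ℕ := if v.1 = 0 then (if u.1 = 4 then 0 else if u.1 = 1 then 1 else 2)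
  else if v.1 < 4 then u.1 / 2 else if v.1 = 4 ∧ u.1 = 0 then 1 else 0

lemma l_le (v : Fin 31) : (G.induce (G.neighborSet v)).indepNum ≤ w v := by
  obtain ⟨s, hs⟩ := (G.induce (G.neighborSet v)).exists_isNIndepSet_indepNum
  have k : ∀ v x, G.Adj v x → c v x < w v ∧ ∀ y, G.Adj v y → c v x = c v y → x = y ∨ G.Adj x y := by
    decide +kernel
  rw [← hs.card_eq, ← card_range (w v)]
  refine card_le_card_of_injOn (fun x => c v x.1) (fun x _ => by simpa using (k v x x.2).1)
    fun x hx y hy e => ?_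
  by_contra n
  exact ((k v x x.2).2 y y.2 e).elim (fun e => n (Subtype.ext e)) (hs.1 hx hy n)

theorem result : ∃ (n : ℕ) (G : SimpleGraph (Fin n)), 2 ≤ n ∧ G.Connected ∧ 0 < lbar G ∧
    (f G : ℝ) < b G / lbar G := by
  have h1 : (f G : ℝ) ≤ 5 := by exact_mod_cast f_le
  have h2 : (6 : ℝ) ≤ b G := by exact_mod_cast b_ge
  have h3 : lbar G ≤ 37 / 31 := by
    have := sum_le_sum fun v (_ : v ∈ univ) => l_le v
    rw [show ∑ v, w v = 37 by decide +kernel] at this
    rw [lbar, Fintype.card_fin]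
    exact div_le_div_of_nonneg_right (by exact_mod_cast this) (by simp)
  have h4 : 0 < lbar G := by
    refine div_pos (sum_pos' (fun _ _ => Nat.cast_nonneg _) ⟨0, mem_univ _, ?_⟩) (by simp)
    have := IsIndepSet.card_le_indepNum (G := G.induce (G.neighborSet 0)) (t := {⟨1, by decide⟩}) (by simp)
    exact_mod_cast this
  exact ⟨31, G, by omega, conn, h4, by rw [lt_div_iff₀ h4]; nlinarith⟩

end Pool.Agent.Results.MP_0f31da_co.Counter
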